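import Pool.Agent.H22.FOT.Defs

open MeasureTheory unitInterval Set Filter Topology

namespace Pool.FOT

open Pool.Agent.H99.LowerTail

namespace LocAux

lemma measurable_rowAv (W : Graphon) : Measurable (rowAv W) := by
  have h : StronglyMeasurable (fun x : I => ∫ y : I, W x y) :=
    StronglyMeasurable.integral_prod_right (f := fun x y => W x y)
      W.measurable'.stronglyMeasurable
  exact h.measurable

lemma rowAv_mem (W : Graphon) (x : I) : rowAv W x ∈ Icc (0 : ℝ) 1 := by
  have hm : Measurable (fun y : I => W x y) := W.measurable'.comp (measurable_const.prodMk measurable_id)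
  have hi : Integrable (fun y : I => W x y) := by
    refine Integrable.of_bound hm.aestronglyMeasurable 1 (Eventually.of_forall fun y => ?_)
    rw [Real.norm_eq_abs, abs_of_nonneg (W.nonneg' _ _)]
    exact W.le_one' _ _
  constructor
  · exact integral_nonneg fun y => W.nonneg' _ _
  · have h := integral_mono hi (integrable_const (1 : ℝ)) (fun y => W.le_one' x y)
    simpa [rowAv] using h

lemma integrable_of_cont {g : ℝ → ℝ} (hg : Continuous g) (W : Graphon) (B : Set I) :
    Integrable (fun t => g (rowAv W t)) (volume.restrict B) := by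
  obtain ⟨C, hC⟩ := isCompact_Icc.exists_bound_of_continuousOn (hg.continuousOn (s := Icc 0 1))
  refine Integrable.of_bound (hg.measurable.comp (measurable_rowAv W)).aestronglyMeasurable C
    (Eventually.of_forall fun t => ?_)
  exact hC _ (rowAv_mem W t)

lemma locLm {T A S X Y K : ℝ} (hT : 0 ≤ T) (h1 : A ≤ -S + X + Y) (h2 : T ≤ K)
    (h3 : 0 ≤ X + Y) : T * A ≤ -(T * S) + K * (X + Y) := by
  have h4 := mul_le_mul_of_nonneg_left h1 hT
  have h5 := mul_le_mul_of_nonneg_right h2 h3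
  have e1 : T * (-S + X + Y) = -(T * S) + T * (X + Y) := by ring
  linarith

lemma locFin1 {r R L m G2 M b c K X Y η2 T S : ℝ}
    (h1 : r + 2 * R - L * m + 2 * G2 - 2 * M * b ^ 2 ≤ c)
    (h2 : 4 * η2 * b ≤ 2 * R + T * S) (h3 : L * m ≤ -(T * S) + K * (X + Y)) :
    r + 4 * η2 * b + 2 * G2 - 2 * M * b ^ 2 - K * (X + Y) ≤ c := by
  linarith

lemma locFin2 {K C M b N δ η : ℝ} (hb : 0 ≤ b) (hM : 0 ≤ M) (hKC : 0 ≤ K * C) (hbδ : b ≤ δ)
    (hNδ : N ≤ δ) (h : (M + K * C) * δ ≤ η ^ 2) :
    2 * M * b ^ 2 + K * (C * (b * (b + N))) ≤ 2 * η ^ 2 * b := by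
  have h3 : M * b ≤ M * δ := mul_le_mul_of_nonneg_left hbδ hM
  have h4 : K * C * (b + N) ≤ K * C * (2 * δ) :=
    mul_le_mul_of_nonneg_left (by linarith) hKC
  have h5 : 2 * (M * b) + K * C * (b + N) ≤ 2 * η ^ 2 := by linarith
  have h6 := mul_le_mul_of_nonneg_right h5 hb
  have e1 : 2 * M * b ^ 2 + K * (C * (b * (b + N))) = (2 * (M * b) + K * C * (b + N)) * b := by
    ring
  rw [e1]
  exact h6

lemma locFin3 {K D η b G δ : ℝ} (hKD : 0 ≤ K * D) (h1 : K * D * η ≤ 1 / 4)
    (h2 : K * D * δ ≤ 1 / 4) (hb : b ≤ δ) (hG : G ≤ δ) :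
    K * (D * ((η + b + G) * G ^ 2)) ≤ G ^ 2 := by
  have h9 : K * D * b ≤ K * D * δ := mul_le_mul_of_nonneg_left hb hKD
  have h10 : K * D * G ≤ K * D * δ := mul_le_mul_of_nonneg_left hG hKD
  have h8 : K * D * (η + b + G) ≤ 1 := by linarith
  have h11 := mul_le_mul_of_nonneg_right h8 (sq_nonneg G)
  have e1 : K * (D * ((η + b + G) * G ^ 2)) = K * D * (η + b + G) * G ^ 2 := by ring
  rw [e1]
  linarith

lemma locFin4 {r η b G M c K X Y : ℝ}
    (h1 : r + 4 * η ^ 2 * b + 2 * G ^ 2 - 2 * M * b ^ 2 - K * (X + Y) ≤ c)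
    (h2 : 2 * M * b ^ 2 + K * X ≤ 2 * η ^ 2 * b) (h3 : K * Y ≤ G ^ 2) :
    r + (2 * η ^ 2 * b + G ^ 2) ≤ c := by
  linarith

end LocAux

open LocAux

theorem t_loc (hREG : REGStmt) (hROW : ROWStmt) (hGIN : GINStmt) (hCST : CSTStmt)
    (hBAD : BADStmt) : LOCStmt := by
  intro V _ H he p q1 hq1 hq1p hp1
  have hp0 : 0 < p := hq1.trans_le hq1p
  set e := numEdges H with hedef
  have he1 : (1 : ℝ) ≤ e := by exact_mod_cast he
  obtain ⟨M0, hM0⟩ := isCompact_Icc.exists_bound_of_continuousOn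
    ((continuous_relEnt hp0 hp1).continuousOn (s := Icc (0 : ℝ) 1))
  set M := |M0| with hM
  have hMnn : 0 ≤ M := abs_nonneg _
  have hMle : ∀ s ∈ Icc (0 : ℝ) 1, relEnt p s ≤ M := fun s hs =>
    (le_abs_self _).trans ((hM0 s hs).trans (le_abs_self _))
  -- the constants
  set K := Ld p q1 / (e * q1 ^ (e - 1)) with hK
  have hLd1 : 0 ≤ Ld p q1 := by
    apply Real.log_nonneg
    have hq11 : q1 < 1 := by linarith
    rw [le_div_iff₀ (mul_pos hq1 (by linarith))]
    nlinarith
  have hKnn : 0 ≤ K := by positivity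
  have hLd : ∀ q, q1 ≤ q → q ≤ p → 0 ≤ Ld p q ∧ Ld p q / (e * q ^ (e - 1)) ≤ K := by
    intro q h1 h2
    have hq0 : 0 < q := hq1.trans_le h1
    have hq11 : q1 < 1 := by linarith
    have hqlt : q < 1 := by linarith
    have ha : 0 ≤ Ld p q := by
      apply Real.log_nonneg
      rw [le_div_iff₀ (mul_pos hq0 (by linarith))]
      nlinarith
    have hb : Ld p q ≤ Ld p q1 := by
      apply Real.log_le_log
      · exact div_pos (mul_pos hp0 (by linarith)) (mul_pos hq0 (by linarith))
      · rw [div_le_div_iff₀ (mul_pos hq0 (by linarith)) (mul_pos hq1 (by linarith))]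
        have h3 : (1 - q) * q1 ≤ (1 - q1) * q := by nlinarith
        have h4 : 0 ≤ p * (1 - p) := mul_nonneg hp0.le (by linarith)
        nlinarith
    refine ⟨ha, ?_⟩
    rw [hK]
    have h5 : q1 ^ (e - 1) ≤ q ^ (e - 1) := pow_le_pow_left₀ hq1.le h1 _
    have h6 : 0 < (e : ℝ) * q1 ^ (e - 1) := by positivity
    exact div_le_div₀ hLd1 hb h6 (mul_le_mul_of_nonneg_left h5 (by linarith))
  set C : ℝ := ((Fintype.card V + 1 : ℕ) : ℝ) ^ 3 * (e + 1) with hC
  have hCnn : 0 ≤ C := by positivity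
  set D : ℝ := 2 ^ e with hD
  have hDnn : 0 ≤ D := by positivity
  set η : ℝ := 1 / (4 * (K * D + 1)) with hη
  have hKD : 0 < K * D + 1 := by positivity
  have hη0 : 0 < η := by positivity
  have hηK : K * D * η ≤ 1 / 4 := by
    rw [hη, mul_one_div, div_le_div_iff₀ (by positivity) (by norm_num)]
    linarith
  set δ : ℝ := min (η ^ 2 / (M + K * C + 1)) (1 / (4 * (K * D + 1))) with hδ
  have hMKC : 0 < M + K * C + 1 := by positivity
  have hδ0 : 0 < δ := lt_min (by positivity) (by positivity)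
  have hδ1 : (M + K * C) * δ ≤ η ^ 2 := by
    have h1 : δ ≤ η ^ 2 / (M + K * C + 1) := min_le_left _ _
    have h2 : δ * (M + K * C + 1) ≤ η ^ 2 := (le_div_iff₀ hMKC).1 h1
    nlinarith
  have hδ2 : K * D * δ ≤ 1 / 4 := by
    have h1 : δ ≤ 1 / (4 * (K * D + 1)) := min_le_right _ _
    exact (mul_le_mul_of_nonneg_left h1 (by positivity)).trans hηK
  refine ⟨min (δ ^ 2) (δ * η ^ 2), lt_min (by positivity) (by positivity), ?_⟩
  intro q hqq1 hqp W hN hfeas
  have hq0 : 0 < q := hq1.trans_le hqq1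
  have hqlt : q < 1 := by linarith
  have hq : q ∈ Icc (0 : ℝ) 1 := ⟨hq0.le, hqlt.le⟩
  obtain ⟨hLnn, hLK⟩ := hLd q hqq1 hqp
  obtain ⟨hB, hb1, hb2, hb3, hb4⟩ := hBAD W q hq η hη0
  set B : Set I := {x : I | η < |rowAv W x - q|} with hBdef
  set b : ℝ := volume.real B with hb
  have hbnn : 0 ≤ b := measureReal_nonneg
  set Wt := repl W q hq B hB with hWt
  have hnsq_nn : ∀ (W : Graphon), 0 ≤ nsq W q := fun W => integral_nonneg fun z => sq_nonneg _
  set N := Real.sqrt (nsq W q) with hNdef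
  have hNnn : 0 ≤ N := Real.sqrt_nonneg _
  have hN2 : N ^ 2 = nsq W q := Real.sq_sqrt (hnsq_nn W)
  set G := Real.sqrt (nsq Wt q) with hGdef
  have hGnn : 0 ≤ G := Real.sqrt_nonneg _
  have hG2 : G ^ 2 = nsq Wt q := Real.sq_sqrt (hnsq_nn Wt)
  have hGN : G ≤ N := Real.sqrt_le_sqrt hb2
  have hNδ : N ≤ δ := by
    have h1 : nsq W q ≤ δ ^ 2 := hN.trans (min_le_left _ _)
    exact (Real.sqrt_le_sqrt h1).trans (le_of_eq (Real.sqrt_sq hδ0.le))
  have hbδ : b ≤ δ := by
    have h1 : nsq W q ≤ δ * η ^ 2 := hN.trans (min_le_right _ _)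
    have h2 : b * η ^ 2 ≤ δ * η ^ 2 := hb1.trans h1
    exact le_of_mul_le_mul_right h2 (by positivity)
  -- REG for `Wt`
  set m : ℝ := ∫ z : I × I, (Wt z.1 z.2 - q) with hm
  have hWtm : Measurable (fun z : I × I => Wt z.1 z.2 - q) := Wt.measurable'.sub_const q
  have hsym : ∀ x y, Wt x y - q = Wt y x - q := fun x y => by rw [Wt.symm' x y]
  have hreg := hREG V I volume (edges H) q (fun x y => Wt x y - q) hsym
    (fun x y => by rw [hsym x y]) (η + b) G hq.1 hq.2 hWtm (fun x y => by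
      rw [abs_le]
      constructor
      · linarith [Wt.nonneg' x y, hq.2]
      · linarith [Wt.le_one' x y, hq.1]) hb3 hGnn
    (by rw [hG2]; rfl) (fun e' he' => by
      classical
      have h1 : e' ∈ H.edgeFinset := he'
      exact H.not_isDiag_of_mem_edgeFinset h1) he
  have hregd : sDens (volume : Measure I) (edges H) (fun x y => q + (Wt x y - q))
      (fun x y => by rw [hsym x y]) = homDensity H Wt := by
    rw [homDensity_eq]
    congr 1
    funext x y
    ring
  rw [hregd, ← numEdges_eq, ← hedef] at hreg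
  change q ^ e + e * q ^ (e - 1) * m - 2 ^ e * ((η + b + G) * G ^ 2) ≤ homDensity H Wt at hreg
  -- ROW
  have hrow := hROW V H W q hq B hB N hNnn hN2.ge
  rw [← hedef] at hrow
  set S : ℝ := ∑ v : V, q ^ (e - dg H v) * ∫ t in B, (rowAv W t ^ dg H v - q ^ dg H v) with hS
  have hrow' : homDensity H Wt + S - C * (b * (b + N)) ≤ q ^ e := hrow.trans hfeas
  -- CST
  have hcst := hCST p q M W hq B hB hq0 hqp hp1 hMle
  set R : ℝ := ∫ t in B, (relEnt p (rowAv W t) - relEnt p q) with hR
  change relEnt p q + 2 * R - Ld p q * m + 2 * nsq Wt q - 2 * M * b ^ 2 ≤ cost p W at hcst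
  -- GIN integrated over `B`
  have hgin : 4 * η ^ 2 * b ≤ 2 * R + Ld p q / (e * q ^ (e - 1)) * S := by
    have h1 : ∫ t in B, (4 * η ^ 2 : ℝ) ≤ ∫ t in B, (2 * (relEnt p (rowAv W t) - relEnt p q) +
        Ld p q / (e * q ^ (e - 1)) *
          ∑ v : V, q ^ (e - dg H v) * (rowAv W t ^ dg H v - q ^ dg H v)) := by
      refine setIntegral_mono_on (integrable_const _) ?_ hB fun t ht => ?_
      · refine ((integrable_of_cont (continuous_relEnt hp0 hp1) W B).sub
          (integrable_const _)).const_mul 2 |>.add (Integrable.const_mul ?_ _)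
        refine integrable_finsetSum _ fun v _ => ?_
        exact ((integrable_of_cont (continuous_pow (dg H v)) W B).sub
          (integrable_const _)).const_mul _
      · have h2 := hGIN V H he p q (rowAv W t) hq0 hqp hp1 (rowAv_mem W t).1 (rowAv_mem W t).2
        have h3 : η < |rowAv W t - q| := ht
        have h4 : η ^ 2 ≤ (rowAv W t - q) ^ 2 := by
          rw [← sq_abs (rowAv W t - q)]
          exact pow_le_pow_left₀ hη0.le h3.le 2
        rw [← hedef] at h2
        linarith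
    have h5 : ∫ t in B, (4 * η ^ 2 : ℝ) = 4 * η ^ 2 * b := by
      rw [setIntegral_const, smul_eq_mul, hb]
      ring
    rw [h5] at h1
    refine h1.trans (le_of_eq ?_)
    rw [integral_add, integral_const_mul, integral_const_mul, integral_finsetSum]
    · simp only [integral_const_mul]
      rfl
    · intro v _
      exact ((integrable_of_cont (continuous_pow (dg H v)) W B).sub
          (integrable_const _)).const_mul _
    · exact ((integrable_of_cont (continuous_relEnt hp0 hp1) W B).sub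
          (integrable_const _)).const_mul 2
    · refine Integrable.const_mul ?_ _
      refine integrable_finsetSum _ fun v _ => ?_
      exact ((integrable_of_cont (continuous_pow (dg H v)) W B).sub
          (integrable_const _)).const_mul _
  -- the estimate for `m`
  have hq' : 0 < (e : ℝ) * q ^ (e - 1) := by positivity
  have hm1 : e * q ^ (e - 1) * m ≤ - S + C * (b * (b + N)) + D * ((η + b + G) * G ^ 2) := by
    linarith
  have hErr : 0 ≤ C * (b * (b + N)) + D * ((η + b + G) * G ^ 2) := by positivity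
  have hLm : Ld p q * m ≤ - (Ld p q / (e * q ^ (e - 1)) * S) +
      K * (C * (b * (b + N)) + D * ((η + b + G) * G ^ 2)) := by
    have h1 : Ld p q * m = Ld p q / (e * q ^ (e - 1)) * (e * q ^ (e - 1) * m) := by
      field_simp
    have h2 : 0 ≤ Ld p q / (e * q ^ (e - 1)) := by positivity
    rw [h1]
    exact locLm h2 hm1 hLK hErr
  -- final inequality
  rw [← hG2] at hcst
  have hfin : relEnt p q + (2 * η ^ 2 * b + nsq Wt q) ≤ cost p W := by
    have h1 : relEnt p q + 4 * η ^ 2 * b + 2 * G ^ 2 - 2 * M * b ^ 2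
        - K * (C * (b * (b + N)) + D * ((η + b + G) * G ^ 2)) ≤ cost p W := by
      exact locFin1 hcst hgin hLm
    have h2 : 2 * M * b ^ 2 + K * (C * (b * (b + N))) ≤ 2 * η ^ 2 * b :=
      locFin2 hbnn hMnn (by positivity) hbδ hNδ hδ1
    have h7 : K * (D * ((η + b + G) * G ^ 2)) ≤ G ^ 2 :=
      locFin3 (by positivity) hηK hδ2 hbδ (hGN.trans hNδ)
    rw [← hG2]
    exact locFin4 h1 h2 h7
  have hWtnn := hnsq_nn Wt
  have h2η : 0 < 2 * η ^ 2 := by positivity
  have hposb : 0 ≤ 2 * η ^ 2 * b := by positivity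
  refine ⟨by linarith only [hfin, hposb, hWtnn], fun hc => hb4 ?_ ?_⟩
  · have h1 : 2 * η ^ 2 * b ≤ 2 * η ^ 2 * 0 := by linarith only [hfin, hposb, hWtnn, hc]
    exact le_antisymm (le_of_mul_le_mul_left h1 h2η) hbnn
  · exact le_antisymm (by linarith only [hfin, hposb, hWtnn, hc]) hWtnn

end Pool.FOT
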