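import Pool.Agent.H22.FOT.EXP

open MeasureTheory unitInterval Set Filter Topology

namespace Pool.FOT

open Pool.Agent.H99.LowerTail ExpAux

namespace Sm2Aux

lemma integral_mp {α β : Type} [MeasurableSpace α] [MeasurableSpace β] {μ : Measure α}
    {ν : Measure β} {φ : α → β} (h : MeasurePreserving φ μ ν) {g : β → ℝ} (hg : Measurable g) :
    ∫ x, g (φ x) ∂μ = ∫ y, g y ∂ν := by
  rw [← h.map_eq]
  exact (integral_map h.measurable.aemeasurable hg.aestronglyMeasurable).symm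

lemma shared {V Ω : Type} [Fintype V] [MeasurableSpace Ω] (hEVT : EVTStmt) (μ : Measure Ω)
    [IsProbabilityMeasure μ] (f : Ω → Ω → ℝ) (hm : Measurable (fun z : Ω × Ω => f z.1 z.2))
    (hb : ∀ x y, |f x y| ≤ 1) (w b d : V) (h1 : w ≠ b) (h2 : w ≠ d) (h3 : b ≠ d) :
    0 ≤ ∫ x : V → Ω, f (x w) (x b) * f (x w) (x d) ∂(Measure.pi fun _ => μ) := by
  have hg : Measurable (fun z : Ω × (Ω × Ω) => f z.1 z.2.1 * f z.1 z.2.2) := by
    have m1 : Measurable (fun z : Ω × (Ω × Ω) => (z.1, z.2.1)) := by fun_prop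
    have m2 : Measurable (fun z : Ω × (Ω × Ω) => (z.1, z.2.2)) := by fun_prop
    exact (hm.comp m1).mul (hm.comp m2)
  rw [integral_mp (hEVT V Ω μ w b d h1 h2 h3)
    (g := fun z : Ω × (Ω × Ω) => f z.1 z.2.1 * f z.1 z.2.2) hg]
  have hi : Integrable (fun z : Ω × (Ω × Ω) => f z.1 z.2.1 * f z.1 z.2.2)
      (μ.prod (μ.prod μ)) := by
    refine Integrable.of_bound hg.aestronglyMeasurable 1 (Eventually.of_forall fun z => ?_)
    rw [Real.norm_eq_abs, abs_mul]
    exact mul_le_one₀ (hb _ _) (abs_nonneg _) (hb _ _)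
  rw [integral_prod _ hi]
  refine integral_nonneg fun s => ?_
  show 0 ≤ ∫ y : Ω × Ω, f s y.1 * f s y.2 ∂(μ.prod μ)
  rw [integral_prod_mul (fun t => f s t) (fun t => f s t)]
  exact mul_self_nonneg _

end Sm2Aux

open Sm2Aux

theorem t_sm2 (hEVQ : EVQStmt) (hEVT : EVTStmt) : SM2Stmt := by
  classical
  intro V Ω _ _ μ _ A f hf hm hb hA hc
  obtain ⟨e1, e2, hne, rfl⟩ := Finset.card_eq_two.1 hc
  have hd1 : ¬ e1.IsDiag := hA e1 (by simp)
  have hd2 : ¬ e2.IsDiag := hA e2 (by simp)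
  unfold sDens
  simp_rw [Finset.prod_pair hne]
  by_cases hsh : ∃ w, w ∈ e1 ∧ w ∈ e2
  · obtain ⟨w, hw1, hw2⟩ := hsh
    obtain ⟨b, rfl⟩ := Sym2.mem_iff_exists.1 hw1
    obtain ⟨d, rfl⟩ := Sym2.mem_iff_exists.1 hw2
    rw [Sym2.mk_isDiag_iff] at hd1 hd2
    simp only [sVal_mk]
    exact shared hEVT μ f hm hb w b d hd1 hd2 fun h => hne (by rw [h])
  · induction e1 using Sym2.ind with
    | _ a b =>
      induction e2 using Sym2.ind with
      | _ c d =>
        rw [Sym2.mk_isDiag_iff] at hd1 hd2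
        simp only [sVal_mk]
        have hac : a ≠ c := fun h => hsh ⟨a, by simp, by simp [h]⟩
        have had : a ≠ d := fun h => hsh ⟨a, by simp, by simp [h]⟩
        have hbc : b ≠ c := fun h => hsh ⟨b, by simp, by simp [h]⟩
        have hbd : b ≠ d := fun h => hsh ⟨b, by simp, by simp [h]⟩
        have hg : Measurable (fun z : (Ω × Ω) × (Ω × Ω) => f z.1.1 z.1.2 * f z.2.1 z.2.2) :=
          (hm.comp measurable_fst).mul (hm.comp measurable_snd)
        rw [integral_mp (hEVQ V Ω μ a b c d hd1 hd2 hac had hbc hbd)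
          (g := fun z : (Ω × Ω) × (Ω × Ω) => f z.1.1 z.1.2 * f z.2.1 z.2.2) hg,
          integral_prod_mul (fun z : Ω × Ω => f z.1 z.2) (fun z : Ω × Ω => f z.1 z.2)]
        exact mul_self_nonneg _

end Pool.FOT
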