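import Pool.Agent.H22.FOT.Defs

open MeasureTheory unitInterval Set Filter Topology

namespace Pool.FOT

open Pool.Agent.H99.LowerTail

namespace ExpAux

lemma measurable_sVal {V Ω : Type} [Fintype V] [MeasurableSpace Ω] (f : Ω → Ω → ℝ)
    (hf : ∀ x y, f x y = f y x) (hm : Measurable (fun z : Ω × Ω => f z.1 z.2)) (e : Sym2 V) :
    Measurable (fun x : V → Ω => sVal f hf x e) := by
  induction e using Sym2.ind with
  | _ i j =>
    have h : Measurable (fun x : V → Ω => (x i, x j)) :=
      (measurable_pi_apply i).prodMk (measurable_pi_apply j)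
    exact hm.comp h

lemma abs_sVal_le {V Ω : Type} (f : Ω → Ω → ℝ)
    (hf : ∀ x y, f x y = f y x) (hb : ∀ x y, |f x y| ≤ 1) (x : V → Ω) (e : Sym2 V) :
    |sVal f hf x e| ≤ 1 := by
  induction e using Sym2.ind with
  | _ i j => exact hb _ _

lemma sVal_add {V Ω : Type} (q : ℝ) (f : Ω → Ω → ℝ)
    (hf : ∀ x y, f x y = f y x) (hg : ∀ x y, q + f x y = q + f y x) (x : V → Ω) (e : Sym2 V) :
    sVal (fun x y => q + f x y) hg x e = sVal f hf x e + q := by
  induction e using Sym2.ind with
  | _ i j => exact add_comm _ _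

lemma integrable_prod_sVal {V Ω : Type} [Fintype V] [MeasurableSpace Ω] (μ : Measure Ω)
    [IsProbabilityMeasure μ] (f : Ω → Ω → ℝ)
    (hf : ∀ x y, f x y = f y x) (hm : Measurable (fun z : Ω × Ω => f z.1 z.2))
    (hb : ∀ x y, |f x y| ≤ 1) (A : Finset (Sym2 V)) :
    Integrable (fun x : V → Ω => ∏ e ∈ A, sVal f hf x e) (Measure.pi fun _ => μ) := by
  have hm' : Measurable (fun x : V → Ω => ∏ e ∈ A, sVal f hf x e) :=
    Finset.measurable_prod _ fun e _ => measurable_sVal f hf hm e
  refine Integrable.of_bound hm'.aestronglyMeasurable 1 (Eventually.of_forall fun x => ?_)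
  rw [Real.norm_eq_abs, Finset.abs_prod]
  exact Finset.prod_le_one (fun e _ => abs_nonneg _) (fun e _ => abs_sVal_le f hf hb x e)

end ExpAux

open ExpAux

theorem t_exp : EXPStmt := by
  classical
  intro V Ω _ _ μ _ F q f hf hg hm hb
  unfold sDens
  have h1 : ∀ x : V → Ω, ∏ e ∈ F, sVal (fun x y => q + f x y) hg x e
      = ∑ A ∈ F.powerset, q ^ (F.card - A.card) * ∏ e ∈ A, sVal f hf x e := by
    intro x
    simp_rw [sVal_add q f hf hg x]
    rw [Finset.prod_add]
    refine Finset.sum_congr rfl fun A hA => ?_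
    rw [Finset.prod_const, Finset.card_sdiff_of_subset (Finset.mem_powerset.1 hA), mul_comm]
  simp_rw [h1]
  rw [integral_finsetSum _ fun A _ => (integrable_prod_sVal μ f hf hm hb A).const_mul _]
  refine Finset.sum_congr rfl fun A _ => ?_
  rw [integral_const_mul]

end Pool.FOT
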