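import Pool.Agent.H22.FOT.Defs

open MeasureTheory unitInterval Set Filter Topology

namespace Pool.FOT

open Pool.Agent.H99.LowerTail

theorem t_var (hCVX : CVXStmt) : VARStmt := by
  intro p W hp0 hp1 hm0 hm1
  set m := mean W with hm
  have hW : Integrable (fun z : I × I => W z.1 z.2) :=
    integrable_comp (f := fun x => x) continuous_id W
  have h1 : Integrable (fun z : I × I => W z.1 z.2 - m) := hW.sub (integrable_const _)
  have h2 : Integrable (fun z : I × I => (W z.1 z.2 - m) ^ 2) :=
    integrable_comp (f := fun x => (x - m) ^ 2) (by fun_prop) W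
  have h3 : ∫ z : I × I, (W z.1 z.2 - m) = 0 := by
    rw [integral_sub hW (integrable_const _)]
    simp [hm, mean]
  have h4 : ∫ z : I × I, (relEnt p m - Ld p m * (W z.1 z.2 - m) + 2 * (W z.1 z.2 - m) ^ 2) ≤
      cost p W := by
    refine integral_mono (((integrable_const _).sub (h1.const_mul _)).add (h2.const_mul _))
      (integrable_comp (continuous_relEnt hp0 hp1) W) fun z => ?_
    exact hCVX p m (W z.1 z.2) hp0 hp1 hm0 hm1 (W.nonneg' _ _) (W.le_one' _ _)
  have i1 : Integrable (fun z : I × I => relEnt p m - Ld p m * (W z.1 z.2 - m)) :=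
    (integrable_const _).sub (h1.const_mul _)
  have i2 : Integrable (fun z : I × I => 2 * (W z.1 z.2 - m) ^ 2) := h2.const_mul _
  have i3 : Integrable (fun z : I × I => Ld p m * (W z.1 z.2 - m)) := h1.const_mul _
  rw [integral_add i1 i2, integral_sub (integrable_const _) i3, integral_const_mul,
    integral_const_mul, h3] at h4
  simpa [nsq] using h4

end Pool.FOT
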