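import Pool.Agent.H22.FOT.Defs

open MeasureTheory unitInterval Set Filter Topology

namespace Pool.FOT

namespace WL

/-- bundling -/
def toPM {X : Type} [MeasurableSpace X] (m : Measure X) (h : IsProbabilityMeasure m) :
    ProbabilityMeasure X := ⟨m, h⟩

lemma wlim_iff {X : Type} [TopologicalSpace X] [CompactSpace X]
    [MeasurableSpace X] [OpensMeasurableSpace X] (m : ℕ → Measure X) (m0 : Measure X)
    (hm : ∀ n, IsProbabilityMeasure (m n)) (h0 : IsProbabilityMeasure m0) :
    WLim m m0 ↔ Tendsto (fun n => toPM (m n) (hm n))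
      (hyperfilter ℕ : Filter ℕ) (𝓝 (toPM m0 h0)) := by
  rw [ProbabilityMeasure.tendsto_iff_forall_integral_tendsto]
  constructor
  · intro h f
    exact h f.toContinuousMap
  · intro h g
    exact h (BoundedContinuousFunction.mkOfCompact g)

end WL

open WL

theorem t_wlx : WLXStmt := by
  intro X _ _ _ _ _ m hm
  have hc : IsCompact (univ : Set (ProbabilityMeasure X)) := isCompact_univ
  obtain ⟨μ, -, hμ⟩ := isCompact_iff_ultrafilter_le_nhds.1 hc
    ((hyperfilter ℕ).map fun n => toPM (m n) (hm n)) (by simp)
  have h2 : Tendsto (fun n => toPM (m n) (hm n))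
      (hyperfilter ℕ : Filter ℕ) (𝓝 μ) := hμ
  exact ⟨μ, μ.2, (wlim_iff m μ hm μ.2).2 h2⟩

theorem t_prd : PRDStmt := by
  intro X Y _ _ _ _ _ _ _ _ _ _ m m0 m' m0' hm h0 hm' h0' h1 h2
  have : SecondCountableTopology X := by
    let := TopologicalSpace.metrizableSpaceMetric X
    infer_instance
  have : SecondCountableTopology Y := by
    let := TopologicalSpace.metrizableSpaceMetric Y
    infer_instance
  rw [wlim_iff m m0 hm h0] at h1
  rw [wlim_iff m' m0' hm' h0'] at h2
  have hp : ∀ n, IsProbabilityMeasure ((m n).prod (m' n)) := fun n => by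
    have := hm n
    have := hm' n
    infer_instance
  have hp0 : IsProbabilityMeasure (m0.prod m0') := by infer_instance
  rw [wlim_iff _ _ hp hp0]
  have h3 := (ProbabilityMeasure.continuous_prod (α := X) (β := Y)).tendsto
    (toPM m0 h0, toPM m0' h0')
  exact h3.comp (h1.prodMk_nhds h2)

theorem t_ppi : PPIStmt := by
  intro V X _ _ _ _ _ _ m m0 hm h0 h1
  have : SecondCountableTopology X := by
    let := TopologicalSpace.metrizableSpaceMetric X
    infer_instance
  rw [wlim_iff m m0 hm h0] at h1
  have hp : ∀ n, IsProbabilityMeasure (Measure.pi fun _ : V => m n) := fun n => by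
    have := hm n
    infer_instance
  have hp0 : IsProbabilityMeasure (Measure.pi fun _ : V => m0) := by infer_instance
  rw [wlim_iff _ _ hp hp0]
  have h3 := (ProbabilityMeasure.continuous_pi (α := fun _ : V => X)).tendsto
    (fun _ => toPM m0 h0)
  exact h3.comp (tendsto_pi_nhds.2 fun _ => h1)

end Pool.FOT
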