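import Pool.Agent.H22.FOT.LOC
import Pool.Agent.H22.FOT.WL
import Pool.Agent.H22.FOT.VAR
import Pool.Agent.H22.FOT.SM2
import Pool.Agent.H22.FOT.EXP
import Pool.Agent.H38.FOT.EVP
import Pool.Agent.H38.FOT.STR
import Pool.Agent.H38.FOT.TWB
import Pool.Agent.H38.FOT.RGT
import Pool.Agent.H40.FOT.BAD
import Pool.Agent.H40.FOT.CPT
import Pool.Agent.H40.FOT.CUL
import Pool.Agent.H40.FOT.CUP
import Pool.Agent.H43.FOT.CUR
import Pool.Agent.H43.FOT.MAIN
import Pool.Agent.H43.FOT.ROW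
import Pool.Agent.H50.FOT.CST
import Pool.Agent.H50.FOT.CVX
import Pool.Agent.H50.FOT.HIL
import Pool.Agent.H50.FOT.STW
import Pool.Agent.H62.FOT.CNT
import Pool.Agent.H62.FOT.DEN
import Pool.Agent.H62.FOT.UPD
import Pool.Agent.H79.FOT.LTW
import Pool.Agent.H79.FOT.RLT
import Pool.Agent.H79.FOT.TRN
import Pool.Agent.H8.FOT.DLM
import Pool.Agent.H8.FOT.LIM
import Pool.Agent.H8.FOT.LM1
import Pool.Agent.H95.FOT.CEX
import Pool.Agent.H95.FOT.ENC
import Pool.Agent.H95.FOT.GIR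
import Pool.Agent.H95.FOT.PTW
import Pool.Agent.H97.FOT.END
import Pool.Agent.H97.FOT.LEF
import Pool.Agent.H97.FOT.PT3
import Pool.Agent.H97.FOT.REG
import Pool.Agent.H97.FOT.RGZ
import Pool.Agent.H97.FOT.SM3

/-! Assembly of the board `fot`. -/

namespace Pool.FOT

theorem h_stp : STPStmt := t_stp t_upd
theorem h_cnt : CNTStmt := t_cnt h_stp
theorem h_cex : CEXStmt := t_cex t_wlx
theorem h_lim : LIMStmt := t_lim t_wlx h_cex t_prd
theorem h_lm1 : LM1Stmt := t_lm1 h_cex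
theorem h_cup : CUPStmt := t_cup h_lm1 t_stw
theorem h_cul : CULStmt := t_cul t_prd t_den
theorem h_enc : ENCStmt := t_enc t_hil
theorem h_dlm : DLMStmt := t_dlm t_ppi
theorem h_cpt : CPTStmt := t_cpt h_enc h_lim h_cul h_cup t_den h_cnt h_dlm t_trn
theorem h_sm1 : SM1Stmt := t_sm1 t_evp
theorem h_sm2 : SM2Stmt := t_sm2 t_evq t_evt
theorem h_lef : LEFStmt := t_lef t_upd t_evp
theorem h_pt3 : PT3Stmt := t_pt3 t_evp t_evq t_evt
theorem h_sm3 : SM3Stmt := t_sm3 h_lef h_pt3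
theorem h_reg : REGStmt := t_reg t_exp h_sm1 h_sm2 h_sm3
theorem h_str : STRStmt := t_str t_upd
theorem h_row : ROWStmt := t_row t_ptw h_str t_evt t_evp
theorem h_gin : GINStmt := t_gin t_cvx
theorem h_cst : CSTStmt := t_cst t_cvx
theorem h_loc : LOCStmt := t_loc h_reg h_row h_gin h_cst t_bad
theorem h_var : VARStmt := t_var t_cvx
theorem h_rlt : RLTStmt := t_rlt h_loc t_cvx
theorem h_cur : CURStmt := t_cur h_loc h_cpt h_var
theorem h_att : ATTStmt := t_att h_cpt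
theorem h_rgz : RGZStmt := t_rgz t_rgt
theorem h_ltw : LTWStmt := t_ltw t_twb t_gir
theorem h_end : ENDStmt := t_end h_ltw
theorem h_main : MAINStmt := t_main h_loc h_rlt h_cur t_rgt h_rgz h_end

end Pool.FOT
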