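import Pool.Agent.H99.LowerTailBasic

/-! Typed statements of the board `fot` (MP_f0e2ba_pr: uniqueness off the curve, coexistence on the
curve). Text: team-store FOT_PLAN_helper22.md. -/

open MeasureTheory unitInterval Set Filter Topology

namespace Pool.FOT

open Pool.Agent.H99.LowerTail

/-! ## General notions -/

/-- A symmetric measurable `[0,1]`-valued kernel on a measurable space. -/
structure GK (Ω : Type) [MeasurableSpace Ω] where
  toFun : Ω → Ω → ℝ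
  measurable' : Measurable (fun z : Ω × Ω => toFun z.1 z.2)
  symm' : ∀ x y, toFun x y = toFun y x
  nonneg' : ∀ x y, 0 ≤ toFun x y
  le_one' : ∀ x y, toFun x y ≤ 1

instance {Ω : Type} [MeasurableSpace Ω] : CoeFun (GK Ω) fun _ => Ω → Ω → ℝ := ⟨GK.toFun⟩

/-- The value of a symmetric function on an unordered pair of vertices placed at the points `x i`. -/
def sVal {V Ω : Type} (f : Ω → Ω → ℝ) (hf : ∀ x y, f x y = f y x) (x : V → Ω) : Sym2 V → ℝ :=
  Sym2.lift ⟨fun i j => f (x i) (x j), fun i j => hf (x i) (x j)⟩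

@[simp] lemma sVal_mk {V Ω : Type} (f : Ω → Ω → ℝ) (hf : ∀ x y, f x y = f y x) (x : V → Ω)
    (i j : V) : sVal f hf x s(i, j) = f (x i) (x j) := rfl

/-- `t_F(f)`: the integral over all placements of the product of `f` over the pairs in `F`. -/
noncomputable def sDens {V Ω : Type} [Fintype V] [MeasurableSpace Ω] (μ : Measure Ω)
    (F : Finset (Sym2 V)) (f : Ω → Ω → ℝ) (hf : ∀ x y, f x y = f y x) : ℝ :=
  ∫ x : V → Ω, ∏ e ∈ F, sVal f hf x e ∂(Measure.pi fun _ => μ)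

open Classical in
/-- The edges of `H` (with the same instances as in `homDensity`). -/
noncomputable def edges {V : Type} [Fintype V] (H : SimpleGraph V) : Finset (Sym2 V) :=
  H.edgeFinset

lemma homDensity_eq {V : Type} [Fintype V] (H : SimpleGraph V) (W : Graphon) :
    homDensity H W = sDens volume (edges H) W W.symm' := rfl

lemma numEdges_eq {V : Type} [Fintype V] (H : SimpleGraph V) : numEdges H = (edges H).card := rfl

open Classical in
/-- The degree of `v`. -/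
noncomputable def dg {V : Type} [Fintype V] (H : SimpleGraph V) (v : V) : ℕ := H.degree v

/-- `|∫∫ f(x,y) a(x) b(y)| ≤ δ` for all measurable `a, b` with values in `[0,1]`. -/
def CutLe {Ω : Type} [MeasurableSpace Ω] (μ : Measure Ω) (f : Ω → Ω → ℝ) (δ : ℝ) : Prop :=
  ∀ a b : Ω → ℝ, Measurable a → Measurable b → (∀ x, a x ∈ Icc (0 : ℝ) 1) →
    (∀ x, b x ∈ Icc (0 : ℝ) 1) → |∫ z : Ω × Ω, f z.1 z.2 * a z.1 * b z.2 ∂(μ.prod μ)| ≤ δ

/-- The Hilbert cube in which the vertices are encoded. -/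
abbrev KK : Type := ℕ × ℕ × Bool → I

/-- Weak convergence along the ultrafilter `hyperfilter ℕ`. -/
def WLim {X : Type} [TopologicalSpace X] [MeasurableSpace X] (m : ℕ → Measure X)
    (m0 : Measure X) : Prop :=
  ∀ g : C(X, ℝ), Tendsto (fun n => ∫ x, g x ∂(m n)) (hyperfilter ℕ : Filter ℕ)
    (𝓝 (∫ x, g x ∂m0))

/-- The mean of a graphon. -/
noncomputable def mean (W : Graphon) : ℝ := ∫ z : I × I, W z.1 z.2

/-- The squared `L²` distance of `W` to the constant `q`. -/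
noncomputable def nsq (W : Graphon) (q : ℝ) : ℝ := ∫ z : I × I, (W z.1 z.2 - q) ^ 2

/-- The row average `s(x) = ∫ W(x, y) dy`. -/
noncomputable def rowAv (W : Graphon) (x : I) : ℝ := ∫ y : I, W x y

open Classical in
/-- `W` with all rows and columns in `B` replaced by the constant `q`. -/
noncomputable def repl (W : Graphon) (q : ℝ) (hq : q ∈ Icc (0 : ℝ) 1) (B : Set I)
    (hB : MeasurableSet B) : Graphon where
  toFun x y := if x ∈ B ∨ y ∈ B then q else W x y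
  measurable' := by
    refine Measurable.ite ?_ measurable_const W.measurable'
    exact (measurable_fst hB).union (measurable_snd hB)
  symm' x y := by
    have h : (x ∈ B ∨ y ∈ B) = (y ∈ B ∨ x ∈ B) := by rw [or_comm]
    simp only [h, W.symm' x y]
  nonneg' x y := by
    split_ifs
    · exact hq.1
    · exact W.nonneg' _ _
  le_one' x y := by
    split_ifs
    · exact hq.2
    · exact W.le_one' _ _

/-- `L = -I_p'(q) ≥ 0` for `q ≤ p`. -/
noncomputable def Ld (p q : ℝ) : ℝ := Real.log (p * (1 - q) / (q * (1 - p)))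

/-! ## Tools on finite powers -/

/-- Resampling one coordinate. -/
def UPDStmt : Prop :=
  ∀ (V Ω : Type) [Fintype V] [DecidableEq V] [MeasurableSpace Ω] (μ : Measure Ω)
    [IsProbabilityMeasure μ] (v : V),
    MeasurePreserving (fun z : (V → Ω) × Ω => Function.update z.1 v z.2)
      ((Measure.pi fun _ => μ).prod μ) (Measure.pi fun _ => μ)

/-- Evaluation at two different vertices. -/
def EVPStmt : Prop :=
  ∀ (V Ω : Type) [Fintype V] [MeasurableSpace Ω] (μ : Measure Ω) [IsProbabilityMeasure μ]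
    (u v : V), u ≠ v →
    MeasurePreserving (fun x : V → Ω => (x u, x v)) (Measure.pi fun _ => μ) (μ.prod μ)

/-- Evaluation at four vertices of two disjoint pairs. -/
def EVQStmt : Prop :=
  ∀ (V Ω : Type) [Fintype V] [MeasurableSpace Ω] (μ : Measure Ω) [IsProbabilityMeasure μ]
    (u v w z : V), u ≠ v → w ≠ z → u ≠ w → u ≠ z → v ≠ w → v ≠ z →
    MeasurePreserving (fun x : V → Ω => ((x u, x v), (x w, x z))) (Measure.pi fun _ => μ)
      ((μ.prod μ).prod (μ.prod μ))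

/-- Evaluation at three different vertices. -/
def EVTStmt : Prop :=
  ∀ (V Ω : Type) [Fintype V] [MeasurableSpace Ω] (μ : Measure Ω) [IsProbabilityMeasure μ]
    (u v w : V), u ≠ v → u ≠ w → v ≠ w →
    MeasurePreserving (fun x : V → Ω => (x u, (x v, x w))) (Measure.pi fun _ => μ)
      (μ.prod (μ.prod μ))

/-! ## Compactness (CPT) -/

/-- One step of the counting lemma: `A` does not depend on `x v`, `B` does not depend on `x u`. -/
def STPStmt : Prop :=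
  ∀ (V Ω : Type) [Fintype V] [DecidableEq V] [MeasurableSpace Ω] (μ : Measure Ω)
    [IsProbabilityMeasure μ] (D : Ω → Ω → ℝ) (C δ : ℝ),
    Measurable (fun z : Ω × Ω => D z.1 z.2) → (∀ x y, |D x y| ≤ C) → CutLe μ D δ →
    ∀ u v : V, u ≠ v → ∀ A B : (V → Ω) → ℝ, Measurable A → Measurable B →
    (∀ x, A x ∈ Icc (0 : ℝ) 1) → (∀ x, B x ∈ Icc (0 : ℝ) 1) →
    (∀ x t, A (Function.update x v t) = A x) → (∀ x t, B (Function.update x u t) = B x) →
    |∫ x : V → Ω, D (x u) (x v) * (A x * B x) ∂(Measure.pi fun _ => μ)| ≤ δ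

/-- Counting lemma. -/
def CNTStmt : Prop :=
  ∀ (V Ω : Type) [Fintype V] [MeasurableSpace Ω] (μ : Measure Ω) [IsProbabilityMeasure μ]
    (F : Finset (Sym2 V)), (∀ e ∈ F, ¬ e.IsDiag) → ∀ (W W' : GK Ω) (δ : ℝ),
    CutLe μ (fun x y => W x y - W' x y) δ →
    |sDens μ F W W.symm' - sDens μ F W' W'.symm'| ≤ F.card * δ

/-- Weak regularity, in the form of sums of `k²` products of `[0,1]`-valued functions. -/
def HILStmt : Prop :=
  ∀ (Ω : Type) [MeasurableSpace Ω] (μ : Measure Ω) [IsProbabilityMeasure μ] (f : Ω → Ω → ℝ),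
    Measurable (fun z : Ω × Ω => f z.1 z.2) → (∀ x y, |f x y| ≤ 1) → ∀ k : ℕ, 0 < k →
    ∃ (a b : ℕ → Ω → ℝ) (c : ℕ → ℝ), (∀ i, Measurable (a i)) ∧ (∀ i, Measurable (b i)) ∧
      (∀ i x, a i x ∈ Icc (0 : ℝ) 1) ∧ (∀ i x, b i x ∈ Icc (0 : ℝ) 1) ∧
      (∀ i, c i ∈ Icc (-1 : ℝ) 1) ∧
      CutLe μ (fun x y => f x y - ∑ i ∈ Finset.range (k ^ 2), c i * a i x * b i y) (1 / k)

/-- Compactness of the space of probability measures on a compact metrizable space. -/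
def WLXStmt : Prop :=
  ∀ (X : Type) [TopologicalSpace X] [CompactSpace X] [TopologicalSpace.MetrizableSpace X]
    [MeasurableSpace X] [BorelSpace X] (m : ℕ → Measure X), (∀ n, IsProbabilityMeasure (m n)) →
    ∃ m0 : Measure X, IsProbabilityMeasure m0 ∧ WLim m m0

/-- Products of two weakly convergent sequences. -/
def PRDStmt : Prop :=
  ∀ (X Y : Type) [TopologicalSpace X] [CompactSpace X] [TopologicalSpace.MetrizableSpace X]
    [MeasurableSpace X] [BorelSpace X] [TopologicalSpace Y] [CompactSpace Y]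
    [TopologicalSpace.MetrizableSpace Y] [MeasurableSpace Y] [BorelSpace Y]
    (m : ℕ → Measure X) (m0 : Measure X) (m' : ℕ → Measure Y) (m0' : Measure Y),
    (∀ n, IsProbabilityMeasure (m n)) → IsProbabilityMeasure m0 →
    (∀ n, IsProbabilityMeasure (m' n)) → IsProbabilityMeasure m0' →
    WLim m m0 → WLim m' m0' → WLim (fun n => (m n).prod (m' n)) (m0.prod m0')

/-- Finite powers of a weakly convergent sequence. -/
def PPIStmt : Prop :=
  ∀ (V X : Type) [Fintype V] [TopologicalSpace X] [CompactSpace X]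
    [TopologicalSpace.MetrizableSpace X] [MeasurableSpace X] [BorelSpace X]
    (m : ℕ → Measure X) (m0 : Measure X), (∀ n, IsProbabilityMeasure (m n)) →
    IsProbabilityMeasure m0 → WLim m m0 →
    WLim (fun n => Measure.pi fun _ : V => m n) (Measure.pi fun _ : V => m0)

/-- Continuous functions are dense in `L¹`, with the bounds kept. -/
def DENStmt : Prop :=
  ∀ (X : Type) [TopologicalSpace X] [CompactSpace X] [TopologicalSpace.MetrizableSpace X]
    [MeasurableSpace X] [BorelSpace X] (m : Measure X) [IsProbabilityMeasure m] (f : X → ℝ),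
    Measurable f → (∀ x, f x ∈ Icc (0 : ℝ) 1) → ∀ ε > 0,
    ∃ g : C(X, ℝ), (∀ x, g x ∈ Icc (0 : ℝ) 1) ∧ ∫ x, |f x - g x| ∂m ≤ ε

/-- Barycentres of weakly convergent laws on `X × I`. -/
def CEXStmt : Prop :=
  ∀ (X : Type) [TopologicalSpace X] [CompactSpace X] [TopologicalSpace.MetrizableSpace X]
    [MeasurableSpace X] [BorelSpace X] (m : ℕ → Measure (X × I)),
    (∀ n, IsProbabilityMeasure (m n)) → ∀ m1 : Measure X, IsProbabilityMeasure m1 →
    WLim (fun n => (m n).map Prod.fst) m1 →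
    ∃ α : X → ℝ, Measurable α ∧ (∀ x, α x ∈ Icc (0 : ℝ) 1) ∧
      (∀ g : C(X, ℝ), Tendsto (fun n => ∫ z, g z.1 * (z.2 : ℝ) ∂(m n))
        (hyperfilter ℕ : Filter ℕ) (𝓝 (∫ x, g x * α x ∂m1))) ∧
      ∀ J : ℝ → ℝ, Continuous J → ConvexOn ℝ (Icc (0 : ℝ) 1) J → ∀ c : ℝ,
        (∀ᶠ n in (hyperfilter ℕ : Filter ℕ), ∫ z, J (z.2 : ℝ) ∂(m n) ≤ c) →
        ∫ x, J (α x) ∂m1 ≤ c

/-- Weak limit of a sequence of encoded graphons. -/
def LIMStmt : Prop :=
  ∀ p : ℝ, 0 < p → p < 1 → ∀ (W : ℕ → Graphon) (Φ : ℕ → I → KK), (∀ n, Measurable (Φ n)) →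
    ∃ (ν : Measure KK) (U : GK KK), IsProbabilityMeasure ν ∧
      WLim (fun n => (volume : Measure I).map (Φ n)) ν ∧
      (∀ g : C(KK × KK, ℝ), Tendsto
        (fun n => ∫ z : I × I, g (Φ n z.1, Φ n z.2) * W n z.1 z.2)
        (hyperfilter ℕ : Filter ℕ) (𝓝 (∫ z : KK × KK, g z * U z.1 z.2 ∂(ν.prod ν)))) ∧
      ∀ c : ℝ, (∀ᶠ n in (hyperfilter ℕ : Filter ℕ), cost p (W n) ≤ c) →
        ∫ z : KK × KK, relEnt p (U z.1 z.2) ∂(ν.prod ν) ≤ c

/-- Weak limit of encoded functions. -/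
def LM1Stmt : Prop :=
  ∀ Φ : ℕ → I → KK, (∀ n, Measurable (Φ n)) → ∀ (ν : Measure KK), IsProbabilityMeasure ν →
    WLim (fun n => (volume : Measure I).map (Φ n)) ν →
    ∀ a : ℕ → I → ℝ, (∀ n, Measurable (a n)) → (∀ n x, a n x ∈ Icc (0 : ℝ) 1) →
    ∃ α : KK → ℝ, Measurable α ∧ (∀ x, α x ∈ Icc (0 : ℝ) 1) ∧
      ∀ g : C(KK, ℝ), Tendsto (fun n => ∫ x : I, g (Φ n x) * a n x)
        (hyperfilter ℕ : Filter ℕ) (𝓝 (∫ x, g x * α x ∂ν))

/-- Two variables: products of functions suffice (Stone-Weierstrass). -/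
def STWStmt : Prop :=
  ∀ Φ : ℕ → I → KK, (∀ n, Measurable (Φ n)) → ∀ (ν : Measure KK), IsProbabilityMeasure ν →
    ∀ (a b : ℕ → I → ℝ) (α β : KK → ℝ), (∀ n, Measurable (a n)) → (∀ n, Measurable (b n)) →
    Measurable α → Measurable β → (∀ n x, a n x ∈ Icc (0 : ℝ) 1) →
    (∀ n x, b n x ∈ Icc (0 : ℝ) 1) → (∀ x, α x ∈ Icc (0 : ℝ) 1) → (∀ x, β x ∈ Icc (0 : ℝ) 1) →
    (∀ g : C(KK, ℝ), Tendsto (fun n => ∫ x : I, g (Φ n x) * a n x)
        (hyperfilter ℕ : Filter ℕ) (𝓝 (∫ x, g x * α x ∂ν))) →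
    (∀ g : C(KK, ℝ), Tendsto (fun n => ∫ x : I, g (Φ n x) * b n x)
        (hyperfilter ℕ : Filter ℕ) (𝓝 (∫ x, g x * β x ∂ν))) →
    ∀ F : C(KK × KK, ℝ), Tendsto
      (fun n => ∫ z : I × I, F (Φ n z.1, Φ n z.2) * a n z.1 * b n z.2)
      (hyperfilter ℕ : Filter ℕ) (𝓝 (∫ z : KK × KK, F z * α z.1 * β z.2 ∂(ν.prod ν)))

/-- The cut norm of a continuous function is upper semicontinuous along the encoding. -/
def CUPStmt : Prop :=
  ∀ Φ : ℕ → I → KK, (∀ n, Measurable (Φ n)) → ∀ (ν : Measure KK), IsProbabilityMeasure ν →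
    WLim (fun n => (volume : Measure I).map (Φ n)) ν → ∀ (F : C(KK × KK, ℝ)) (δ δ' : ℝ),
    CutLe ν (fun x y => F (x, y)) δ → δ < δ' →
    ∀ᶠ n in (hyperfilter ℕ : Filter ℕ), CutLe (volume : Measure I)
      (fun x y => F (Φ n x, Φ n y)) δ'

/-- The cut distance passes to the limit kernel. -/
def CULStmt : Prop :=
  ∀ (W : ℕ → Graphon) (Φ : ℕ → I → KK), (∀ n, Measurable (Φ n)) →
    ∀ (ν : Measure KK) (U : GK KK), IsProbabilityMeasure ν →
    WLim (fun n => (volume : Measure I).map (Φ n)) ν →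
    (∀ g : C(KK × KK, ℝ), Tendsto
      (fun n => ∫ z : I × I, g (Φ n z.1, Φ n z.2) * W n z.1 z.2)
      (hyperfilter ℕ : Filter ℕ) (𝓝 (∫ z : KK × KK, g z * U z.1 z.2 ∂(ν.prod ν)))) →
    ∀ (G : C(KK × KK, ℝ)) (δ : ℝ),
    (∀ᶠ n in (hyperfilter ℕ : Filter ℕ), CutLe (volume : Measure I)
      (fun x y => W n x y - G (Φ n x, Φ n y)) δ) →
    CutLe ν (fun x y => U x y - G (x, y)) δ

/-- The encoding. -/
def ENCStmt : Prop :=
  ∀ W : ℕ → Graphon, ∃ (Φ : ℕ → I → KK) (G : ℕ → C(KK × KK, ℝ)), (∀ n, Measurable (Φ n)) ∧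
    ∀ k : ℕ, 0 < k → ∀ᶠ n in (hyperfilter ℕ : Filter ℕ), CutLe (volume : Measure I)
      (fun x y => W n x y - G k (Φ n x, Φ n y)) (2 / k)

/-- Densities of an encoded continuous kernel converge. -/
def DLMStmt : Prop :=
  ∀ (V : Type) [Fintype V] (F : Finset (Sym2 V)) (Φ : ℕ → I → KK), (∀ n, Measurable (Φ n)) →
    ∀ (ν : Measure KK), IsProbabilityMeasure ν →
    WLim (fun n => (volume : Measure I).map (Φ n)) ν →
    ∀ (φ : C(KK × KK, ℝ)) (hs : ∀ x y, φ (x, y) = φ (y, x)),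
    Tendsto (fun n => sDens (volume : Measure I) F (fun x y => φ (Φ n x, Φ n y))
      (fun x y => hs (Φ n x) (Φ n y))) (hyperfilter ℕ : Filter ℕ)
      (𝓝 (sDens ν F (fun x y => φ (x, y)) hs))

/-- Transport to the unit interval. -/
def TRNStmt : Prop :=
  ∀ (ν : Measure KK) (U : GK KK), IsProbabilityMeasure ν → ∃ W : Graphon,
    (∀ (V : Type) [Fintype V] (H : SimpleGraph V),
      homDensity H W = sDens ν (edges H) U U.symm') ∧
    ∀ g : ℝ → ℝ, Measurable g →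
      ∫ z : I × I, g (W z.1 z.2) = ∫ z : KK × KK, g (U z.1 z.2) ∂(ν.prod ν)

/-- Compactness of the space of graphons. -/
def CPTStmt : Prop :=
  ∀ p : ℝ, 0 < p → p < 1 → ∀ W : ℕ → Graphon, ∃ W0 : Graphon,
    (∀ (V : Type) [Fintype V] (H : SimpleGraph V),
      Tendsto (fun n => homDensity H (W n)) (hyperfilter ℕ : Filter ℕ)
        (𝓝 (homDensity H W0))) ∧
    Tendsto (fun n => mean (W n)) (hyperfilter ℕ : Filter ℕ) (𝓝 (mean W0)) ∧
    ∀ c : ℝ, (∀ᶠ n in (hyperfilter ℕ : Filter ℕ), cost p (W n) ≤ c) → cost p W0 ≤ c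

/-! ## Local strict minimality (LOC) -/

/-- Expansion of `t_F(q + f)`. -/
def EXPStmt : Prop :=
  ∀ (V Ω : Type) [Fintype V] [MeasurableSpace Ω] (μ : Measure Ω) [IsProbabilityMeasure μ]
    (F : Finset (Sym2 V)) (q : ℝ) (f : Ω → Ω → ℝ) (hf : ∀ x y, f x y = f y x)
    (hg : ∀ x y, q + f x y = q + f y x), Measurable (fun z : Ω × Ω => f z.1 z.2) →
    (∀ x y, |f x y| ≤ 1) →
    sDens μ F (fun x y => q + f x y) hg =
      ∑ A ∈ F.powerset, q ^ (F.card - A.card) * sDens μ A f hf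

/-- One edge. -/
def SM1Stmt : Prop :=
  ∀ (V Ω : Type) [Fintype V] [MeasurableSpace Ω] (μ : Measure Ω) [IsProbabilityMeasure μ]
    (A : Finset (Sym2 V)) (f : Ω → Ω → ℝ) (hf : ∀ x y, f x y = f y x),
    Measurable (fun z : Ω × Ω => f z.1 z.2) → (∀ x y, |f x y| ≤ 1) →
    (∀ e ∈ A, ¬ e.IsDiag) → A.card = 1 →
    sDens μ A f hf = ∫ z : Ω × Ω, f z.1 z.2 ∂(μ.prod μ)

/-- Two edges. -/
def SM2Stmt : Prop :=
  ∀ (V Ω : Type) [Fintype V] [MeasurableSpace Ω] (μ : Measure Ω) [IsProbabilityMeasure μ]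
    (A : Finset (Sym2 V)) (f : Ω → Ω → ℝ) (hf : ∀ x y, f x y = f y x),
    Measurable (fun z : Ω × Ω => f z.1 z.2) → (∀ x y, |f x y| ≤ 1) →
    (∀ e ∈ A, ¬ e.IsDiag) → A.card = 2 → 0 ≤ sDens μ A f hf

/-- A leaf gives a factor `η`. -/
def LEFStmt : Prop :=
  ∀ (V Ω : Type) [Fintype V] [MeasurableSpace Ω] (μ : Measure Ω) [IsProbabilityMeasure μ]
    (A : Finset (Sym2 V)) (f : Ω → Ω → ℝ) (hf : ∀ x y, f x y = f y x) (η : ℝ),
    Measurable (fun z : Ω × Ω => f z.1 z.2) → (∀ x y, |f x y| ≤ 1) →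
    (∀ x, |∫ y, f x y ∂μ| ≤ η) → (∀ e ∈ A, ¬ e.IsDiag) → 3 ≤ A.card →
    ∀ v w : V, s(v, w) ∈ A → (∀ e ∈ A, v ∈ e → e = s(v, w)) →
    |sDens μ A f hf| ≤ η * ∫ z : Ω × Ω, f z.1 z.2 ^ 2 ∂(μ.prod μ)

/-- A path of three edges or a triangle inside `A` gives the cube of the `L²` norm. -/
def PT3Stmt : Prop :=
  ∀ (V Ω : Type) [Fintype V] [MeasurableSpace Ω] (μ : Measure Ω) [IsProbabilityMeasure μ]
    (A : Finset (Sym2 V)) (f : Ω → Ω → ℝ) (hf : ∀ x y, f x y = f y x) (N : ℝ),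
    Measurable (fun z : Ω × Ω => f z.1 z.2) → (∀ x y, |f x y| ≤ 1) → 0 ≤ N →
    ∫ z : Ω × Ω, f z.1 z.2 ^ 2 ∂(μ.prod μ) = N ^ 2 →
    ∀ u v w z : V, u ≠ v → u ≠ w → v ≠ z → w ≠ v → z ≠ u →
    s(u, v) ∈ A → s(u, w) ∈ A → s(v, z) ∈ A → |sDens μ A f hf| ≤ N ^ 3

/-- At least three edges. -/
def SM3Stmt : Prop :=
  ∀ (V Ω : Type) [Fintype V] [MeasurableSpace Ω] (μ : Measure Ω) [IsProbabilityMeasure μ]
    (A : Finset (Sym2 V)) (f : Ω → Ω → ℝ) (hf : ∀ x y, f x y = f y x) (η N : ℝ),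
    Measurable (fun z : Ω × Ω => f z.1 z.2) → (∀ x y, |f x y| ≤ 1) →
    (∀ x, |∫ y, f x y ∂μ| ≤ η) → 0 ≤ N → ∫ z : Ω × Ω, f z.1 z.2 ^ 2 ∂(μ.prod μ) = N ^ 2 →
    (∀ e ∈ A, ¬ e.IsDiag) → 3 ≤ A.card → |sDens μ A f hf| ≤ (η + N) * N ^ 2

/-- Lower bound for the density of an almost constant kernel with almost constant degrees. -/
def REGStmt : Prop :=
  ∀ (V Ω : Type) [Fintype V] [MeasurableSpace Ω] (μ : Measure Ω) [IsProbabilityMeasure μ]
    (F : Finset (Sym2 V)) (q : ℝ) (f : Ω → Ω → ℝ) (hf : ∀ x y, f x y = f y x)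
    (hg : ∀ x y, q + f x y = q + f y x) (η N : ℝ), 0 ≤ q → q ≤ 1 →
    Measurable (fun z : Ω × Ω => f z.1 z.2) → (∀ x y, |f x y| ≤ 1) →
    (∀ x, |∫ y, f x y ∂μ| ≤ η) → 0 ≤ N → ∫ z : Ω × Ω, f z.1 z.2 ^ 2 ∂(μ.prod μ) = N ^ 2 →
    (∀ e ∈ F, ¬ e.IsDiag) → 0 < F.card →
    q ^ F.card + F.card * q ^ (F.card - 1) * (∫ z : Ω × Ω, f z.1 z.2 ∂(μ.prod μ))
      - 2 ^ F.card * ((η + N) * N ^ 2) ≤ sDens μ F (fun x y => q + f x y) hg

/-- The pointwise comparison of `W` with `repl W q B`. -/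
def PTWStmt : Prop :=
  ∀ (V : Type) [Fintype V] [DecidableEq V] (H : SimpleGraph V) (W : Graphon) (q : ℝ)
    (hq : q ∈ Icc (0 : ℝ) 1) (B : Set I) (hB : MeasurableSet B) (x : V → I),
    ∏ e ∈ edges H, edgeVal (repl W q hq B hB) x e
      + ∑ v : V, B.indicator (fun _ => (1 : ℝ)) (x v) *
          (q ^ (numEdges H - dg H v) * ∏ e ∈ (edges H).filter (fun e => v ∈ e), edgeVal W x e
            - q ^ numEdges H)
      - ∑ v : V, ∑ e ∈ (edges H).filter (fun e => v ∉ e),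
          B.indicator (fun _ => (1 : ℝ)) (x v) * |edgeVal W x e - q|
      - (Fintype.card V + 1) * ∑ v : V, ∑ w ∈ Finset.univ.filter (fun w => w ≠ v),
          B.indicator (fun _ => (1 : ℝ)) (x v) * B.indicator (fun _ => (1 : ℝ)) (x w)
      ≤ ∏ e ∈ edges H, edgeVal W x e

/-- The integral of a star. -/
def STRStmt : Prop :=
  ∀ (V : Type) [Fintype V] [DecidableEq V] (H : SimpleGraph V) (W : Graphon) (B : Set I),
    MeasurableSet B → ∀ v : V,
    ∫ x : V → I, B.indicator (fun _ => (1 : ℝ)) (x v) *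
        ∏ e ∈ (edges H).filter (fun e => v ∈ e), edgeVal W x e
      = ∫ t in B, rowAv W t ^ dg H v

/-- Comparison of `t(H, W)` with `t(H, repl W q B)`. -/
def ROWStmt : Prop :=
  ∀ (V : Type) [Fintype V] (H : SimpleGraph V) (W : Graphon) (q : ℝ)
    (hq : q ∈ Icc (0 : ℝ) 1) (B : Set I) (hB : MeasurableSet B) (N : ℝ), 0 ≤ N →
    nsq W q ≤ N ^ 2 →
    homDensity H (repl W q hq B hB)
      + (∑ v : V, q ^ (numEdges H - dg H v) * (∫ t in B, (rowAv W t ^ dg H v - q ^ dg H v)))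
      - ((Fintype.card V + 1 : ℕ) : ℝ) ^ 3 * (numEdges H + 1) *
          (volume.real B * (volume.real B + N))
      ≤ homDensity H W

/-- Uniform convexity of `I_p`. -/
def CVXStmt : Prop :=
  ∀ p q s : ℝ, 0 < p → p < 1 → 0 < q → q < 1 → 0 ≤ s → s ≤ 1 →
    relEnt p q - Ld p q * (s - q) + 2 * (s - q) ^ 2 ≤ relEnt p s

/-- The function of the row averages. -/
def GINStmt : Prop :=
  ∀ (V : Type) [Fintype V] (H : SimpleGraph V), 0 < numEdges H → ∀ p q s : ℝ, 0 < q → q ≤ p →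
    p < 1 → 0 ≤ s → s ≤ 1 →
    4 * (s - q) ^ 2 ≤ 2 * (relEnt p s - relEnt p q) +
      Ld p q / (numEdges H * q ^ (numEdges H - 1)) *
        ∑ v : V, q ^ (numEdges H - dg H v) * (s ^ dg H v - q ^ dg H v)

/-- Lower bound for the cost. -/
def CSTStmt : Prop :=
  ∀ (p q M : ℝ) (W : Graphon) (hq : q ∈ Icc (0 : ℝ) 1) (B : Set I) (hB : MeasurableSet B),
    0 < q → q ≤ p → p < 1 → (∀ s ∈ Icc (0 : ℝ) 1, relEnt p s ≤ M) →
    relEnt p q + 2 * (∫ t in B, (relEnt p (rowAv W t) - relEnt p q))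
      - Ld p q * (∫ z : I × I, (repl W q hq B hB z.1 z.2 - q))
      + 2 * nsq (repl W q hq B hB) q - 2 * M * volume.real B ^ 2 ≤ cost p W

/-- Chebyshev for the set of bad rows, and the degrees of `repl W q B`. -/
def BADStmt : Prop :=
  ∀ (W : Graphon) (q : ℝ) (hq : q ∈ Icc (0 : ℝ) 1) (η : ℝ), 0 < η →
    ∃ hB : MeasurableSet {x : I | η < |rowAv W x - q|},
    volume.real {x : I | η < |rowAv W x - q|} * η ^ 2 ≤ nsq W q ∧
    nsq (repl W q hq _ hB) q ≤ nsq W q ∧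
    (∀ x, |∫ y : I, (repl W q hq _ hB x y - q)|
      ≤ η + volume.real {x : I | η < |rowAv W x - q|}) ∧
    (volume.real {x : I | η < |rowAv W x - q|} = 0 → nsq (repl W q hq _ hB) q = 0 →
      ∀ᵐ z : I × I, W z.1 z.2 = q)

/-- **Local strict minimality of the constants**, uniformly in `q ∈ [q1, p]`. -/
def LOCStmt : Prop :=
  ∀ (V : Type) [Fintype V] (H : SimpleGraph V), 0 < numEdges H → ∀ p q1 : ℝ, 0 < q1 →
    q1 ≤ p → p < 1 → ∃ ε > 0, ∀ q, q1 ≤ q → q ≤ p → ∀ W : Graphon, nsq W q ≤ ε →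
    homDensity H W ≤ q ^ numEdges H →
    relEnt p q ≤ cost p W ∧ (cost p W = relEnt p q → ∀ᵐ z : I × I, W z.1 z.2 = q)

/-! ## Consequences -/

/-- Strong convexity around the mean. -/
def VARStmt : Prop :=
  ∀ (p : ℝ) (W : Graphon), 0 < p → p < 1 → 0 < mean W → mean W < 1 →
    relEnt p (mean W) + 2 * nsq W (mean W) ≤ cost p W

/-- A left neighbourhood of `p` is replica symmetric. -/
def RLTStmt : Prop :=
  ∀ (V : Type) [Fintype V] (H : SimpleGraph V), 0 < numEdges H → ∀ p : ℝ, 0 < p → p < 1 →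
    ∃ q, 0 < q ∧ q < p ∧ IsMinimizer H p q

/-- The set of uniqueness is open to the left. -/
def CURStmt : Prop :=
  ∀ (V : Type) [Fintype V] (H : SimpleGraph V), 0 < numEdges H → ∀ p q0 : ℝ, 0 < q0 →
    q0 < p → p < 1 → IsUniqueMinimizer H p q0 → ∃ q, 0 < q ∧ q < q0 ∧ IsMinimizer H p q

/-- The lower tail problem has a minimizer. -/
def ATTStmt : Prop :=
  ∀ (V : Type) [Fintype V] (H : SimpleGraph V), ∀ p q : ℝ, 0 < p → p < 1 → 0 ≤ q →
    ∃ W : Graphon, homDensity H W ≤ q ^ numEdges H ∧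
      ∀ W' : Graphon, homDensity H W' ≤ q ^ numEdges H → cost p W ≤ cost p W'

/-- The multipartite graphon. -/
def RGTStmt : Prop :=
  ∀ (V : Type) [Fintype V] (H : SimpleGraph V) (r : ℕ), 0 < r → ¬ H.Colorable r →
    ∀ p q : ℝ, 0 < q → q ≤ p → p < 1 → IsMinimizer H p q → relEnt p q ≤ relEnt p 0 / r

/-- Symmetry breaking for small `q`. -/
def RGZStmt : Prop :=
  ∀ (V : Type) [Fintype V] (H : SimpleGraph V), ¬ H.Colorable 2 → ∀ p : ℝ, 0 < p → p < 1 →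
    ∃ q, 0 < q ∧ q < p ∧ ¬ IsMinimizer H p q

/-- The sign of the half of `[0,1]`. -/
noncomputable def sg (x : I) : ℝ := if (x : ℝ) < 1 / 2 then 1 else -1

open Classical in
/-- The sets of edges with all degrees even. -/
noncomputable def evens {V : Type} [Fintype V] (H : SimpleGraph V) :
    Finset (Finset (Sym2 V)) :=
  (edges H).powerset.filter fun A => ∀ v : V, Even (A.filter fun e => v ∈ e).card

/-- Odd girth: the smallest nonempty even set of edges is odd. -/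
def GIRStmt : Prop :=
  ∀ (V : Type) [Fintype V] (H : SimpleGraph V), Odd H.girth →
    ∃ A ∈ evens H, Odd A.card ∧ ∀ A' ∈ evens H, A'.Nonempty → A.card ≤ A'.card

/-- Densities of the two-block graphon `q - a σ ⊗ σ`. -/
def TWBStmt : Prop :=
  ∀ (V : Type) [Fintype V] (H : SimpleGraph V) (q a : ℝ) (W : Graphon),
    (∀ x y, W x y = q - a * (sg x * sg y)) → mean W = q ∧
    homDensity H W = ∑ A ∈ evens H, q ^ (numEdges H - A.card) * (-a) ^ A.card

/-- For odd girth a two-block graphon of mean `q` beats the constant `q`. -/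
def LTWStmt : Prop :=
  ∀ (V : Type) [Fintype V] (H : SimpleGraph V), Odd H.girth → ∀ q : ℝ, 0 < q → q < 1 →
    ∃ (W : Graphon) (c : ℝ), c < 1 ∧ (∀ x y, W x y ≤ c) ∧ mean W = q ∧
      homDensity H W < q ^ numEdges H

/-- Odd girth: near `p = 1` there is symmetry breaking at every `q < 1`. -/
def ENDStmt : Prop :=
  ∀ (V : Type) [Fintype V] (H : SimpleGraph V), Odd H.girth → ∀ q : ℝ, 0 < q → q < 1 →
    ∃ p0 < 1, ∀ p, p0 < p → p < 1 → ¬ IsMinimizer H p q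

/-- The phase curve: all statements for the curve of `PhaseCurve`. -/
def MAINStmt : Prop :=
  ∀ (V : Type) [Fintype V] (H : SimpleGraph V), H ≠ ⊥ →
    ∃ ρ : ℝ → ℝ, (∀ p ∈ Ioo (0 : ℝ) 1, 0 ≤ ρ p ∧ ρ p < 1) ∧
      (∀ p q : ℝ, 0 < q → q ≤ p → p < 1 →
        (IsMinimizer H p q ↔ ρ p * p ≤ q) ∧ (IsUniqueMinimizer H p q ↔ ρ p * p < q)) ∧
      (∀ p q1 : ℝ, 0 < q1 → q1 ≤ p → p < 1 → ∃ ε > 0, ∀ q, q1 ≤ q → q ≤ p → ∀ W : Graphon,
        homDensity H W ≤ q ^ numEdges H → cost p W ≤ relEnt p q →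
        (∀ᵐ z : I × I, W z.1 z.2 = q) ∨ ε < ∫ z : I × I, (W z.1 z.2 - q) ^ 2) ∧
      (∀ r : ℕ, 0 < r → ¬ H.Colorable r → ∀ p ∈ Ioo (0 : ℝ) 1,
        relEnt p (ρ p * p) ≤ relEnt p 0 / r) ∧
      (¬ H.Colorable 2 → (∀ p ∈ Ioo (0 : ℝ) 1, 0 < ρ p) ∧ StrictMonoOn ρ (Ioo 0 1) ∧
        StrictAntiOn (fun p => (1 - p) * ρ p) (Ioo 0 1)) ∧
      (Odd H.girth → Tendsto ρ (𝓝[<] 1) (𝓝 1))

end Pool.FOT
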