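import Pool.Agent.H22.FOT.Defs

/-! Typed statements of the board `fog` (second part of `fot`: even girth; the phase curve stays
away from `1`). Text: team-store FOG_PLAN_helper22.md. -/

open MeasureTheory unitInterval Set Filter Topology

namespace Pool.FOT

open Pool.Agent.H99.LowerTail

/-! ## Words: paths and cycles with weights -/

/-- The kernel of the path with the weights `l` at its inner vertices. -/
noncomputable def pth {Ω : Type} [MeasurableSpace Ω] (μ : Measure Ω) (f : Ω → Ω → ℝ) :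
    List (Ω → ℝ) → Ω → Ω → ℝ
  | [] => f
  | τ :: l => fun x y => ∫ z, f x z * (τ z * pth μ f l z y) ∂μ

/-- Lists of measurable weights bounded by `1`. -/
def WOk {Ω : Type} [MeasurableSpace Ω] (l : List (Ω → ℝ)) : Prop :=
  ∀ τ ∈ l, Measurable τ ∧ ∀ x, |τ x| ≤ 1

/-- The squared `L²` norm of a path kernel. -/
noncomputable def pN {Ω : Type} [MeasurableSpace Ω] (μ : Measure Ω) (f : Ω → Ω → ℝ)
    (l : List (Ω → ℝ)) : ℝ := ∫ z : Ω × Ω, pth μ f l z.1 z.2 ^ 2 ∂(μ.prod μ)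

/-- `t(C_{2r}, f)`. -/
noncomputable def cyT {Ω : Type} [MeasurableSpace Ω] (μ : Measure Ω) (f : Ω → Ω → ℝ) (r : ℕ) : ℝ :=
  pN μ f (List.replicate (r - 1) fun _ => 1)

/-- The cyclic product of length `n + 3` with the weights `τ`. -/
noncomputable def cyc {Ω : Type} [MeasurableSpace Ω] (μ : Measure Ω) (f : Ω → Ω → ℝ) (n : ℕ)
    (τ : Fin (n + 3) → Ω → ℝ) : ℝ :=
  ∫ y : Fin (n + 3) → Ω, ∏ i, (τ i (y i) * f (y i) (y (i + 1))) ∂(Measure.pi fun _ => μ)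

/-- Basic facts on path kernels. -/
def PTBStmt : Prop :=
  ∀ (Ω : Type) [MeasurableSpace Ω] (μ : Measure Ω) [IsProbabilityMeasure μ] (f : Ω → Ω → ℝ),
    (∀ x y, f x y = f y x) → Measurable (fun z : Ω × Ω => f z.1 z.2) → (∀ x y, |f x y| ≤ 1) →
    (∀ l : List (Ω → ℝ), WOk l → Measurable (fun z : Ω × Ω => pth μ f l z.1 z.2) ∧
      (∀ x y, |pth μ f l x y| ≤ 1) ∧ ∀ x y, pth μ f l.reverse x y = pth μ f l y x) ∧
    ∀ (l : List (Ω → ℝ)) (τ : Ω → ℝ) (l' : List (Ω → ℝ)), WOk l → WOk [τ] → WOk l' →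
      ∀ x y, pth μ f (l ++ τ :: l') x y = ∫ z, pth μ f l x z * (τ z * pth μ f l' z y) ∂μ

/-- Weights do not increase the `L²` norm above the one without weights (chessboard estimate). -/
def NLEStmt : Prop :=
  ∀ (Ω : Type) [MeasurableSpace Ω] (μ : Measure Ω) [IsProbabilityMeasure μ] (f : Ω → Ω → ℝ),
    (∀ x y, f x y = f y x) → Measurable (fun z : Ω × Ω => f z.1 z.2) → (∀ x y, |f x y| ≤ 1) →
    ∀ l : List (Ω → ℝ), WOk l → pN μ f l ≤ pN μ f (List.replicate l.length fun _ => 1)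

/-- One more edge costs a factor `κ`. -/
def SCHStmt : Prop :=
  ∀ (Ω : Type) [MeasurableSpace Ω] (μ : Measure Ω) [IsProbabilityMeasure μ] (f : Ω → Ω → ℝ)
    (κ : ℝ), (∀ x y, f x y = f y x) → Measurable (fun z : Ω × Ω => f z.1 z.2) →
    (∀ x y, |f x y| ≤ 1) → (∀ x, ∫ y, |f x y| ∂μ ≤ κ) →
    ∀ (l : List (Ω → ℝ)) (τ : Ω → ℝ), WOk l → WOk [τ] →
      pN μ f (l ++ [τ]) ≤ κ ^ 2 * pN μ f l

/-- Cauchy-Schwarz on a cyclic product. -/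
def CYIStmt : Prop :=
  ∀ (Ω : Type) [MeasurableSpace Ω] (μ : Measure Ω) [IsProbabilityMeasure μ] (f : Ω → Ω → ℝ),
    (∀ x y, f x y = f y x) → Measurable (fun z : Ω × Ω => f z.1 z.2) → (∀ x y, |f x y| ≤ 1) →
    ∀ (n a b : ℕ), a + b + 2 = n + 3 → ∀ τ : Fin (n + 3) → Ω → ℝ, (∀ i, Measurable (τ i)) →
    (∀ i t, |τ i t| ≤ 1) → ∃ l l' : List (Ω → ℝ), WOk l ∧ WOk l' ∧ l.length = a ∧
      l'.length = b ∧ cyc μ f n τ ^ 2 ≤ pN μ f l * pN μ f l'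

/-- The cycle without weights. -/
def CYEStmt : Prop :=
  ∀ (Ω : Type) [MeasurableSpace Ω] (μ : Measure Ω) [IsProbabilityMeasure μ] (f : Ω → Ω → ℝ),
    (∀ x y, f x y = f y x) → Measurable (fun z : Ω × Ω => f z.1 z.2) → (∀ x y, |f x y| ≤ 1) →
    ∀ n r : ℕ, n + 3 = 2 * r → cyc μ f n (fun _ _ => 1) = cyT μ f r

/-- Cyclic products of length at least `2r`. -/
def CYBStmt : Prop :=
  ∀ (Ω : Type) [MeasurableSpace Ω] (μ : Measure Ω) [IsProbabilityMeasure μ] (f : Ω → Ω → ℝ)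
    (κ : ℝ), (∀ x y, f x y = f y x) → Measurable (fun z : Ω × Ω => f z.1 z.2) →
    (∀ x y, |f x y| ≤ 1) → (∀ x, ∫ y, |f x y| ∂μ ≤ κ) → ∀ n r : ℕ, 2 ≤ r → 2 * r ≤ n + 3 →
    ∀ τ : Fin (n + 3) → Ω → ℝ, (∀ i, Measurable (τ i)) → (∀ i t, |τ i t| ≤ 1) →
      |cyc μ f n τ| ≤ κ ^ (n + 3 - 2 * r) * cyT μ f r

/-! ## Densities of sets of edges containing a cycle -/

/-- `c` runs through a cycle of length `n + 3` in `A`. -/
def CycIn {V : Type} (A : Finset (Sym2 V)) (n : ℕ) (c : Fin (n + 3) → V) : Prop :=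
  Function.Injective c ∧ ∀ i, s(c i, c (i + 1)) ∈ A

/-- The cycle has no chord in `A`. -/
def Chordless {V : Type} (A : Finset (Sym2 V)) (n : ℕ) (c : Fin (n + 3) → V) : Prop :=
  ∀ i j, s(c i, c j) ∈ A → j = i + 1 ∨ i = j + 1

/-- Integrating along a cycle, the other coordinates being fixed. -/
def CYVStmt : Prop :=
  ∀ (V Ω : Type) [Fintype V] [DecidableEq V] [MeasurableSpace Ω] (μ : Measure Ω)
    [IsProbabilityMeasure μ] (f : Ω → Ω → ℝ), Measurable (fun z : Ω × Ω => f z.1 z.2) →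
    (∀ x y, |f x y| ≤ 1) → ∀ (n : ℕ) (c : Fin (n + 3) → V), Function.Injective c → ∀ M : ℝ,
    (∀ τ : Fin (n + 3) → Ω → ℝ, (∀ i, Measurable (τ i)) → (∀ i t, |τ i t| ≤ 1) →
      |cyc μ f n τ| ≤ M) →
    ∀ (G : Fin (n + 3) → (V → Ω) → ℝ) (R : (V → Ω) → ℝ), (∀ i, Measurable (G i)) →
    Measurable R → (∀ i x, |G i x| ≤ 1) → (∀ x, |R x| ≤ 1) →
    (∀ i j, j ≠ i → ∀ x t, G i (Function.update x (c j) t) = G i x) →
    (∀ j x t, R (Function.update x (c j) t) = R x) →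
    |∫ x : V → Ω, R x * ∏ i, (G i x * f (x (c i)) (x (c (i + 1)))) ∂(Measure.pi fun _ => μ)|
      ≤ M * ∫ x : V → Ω, |R x| ∂(Measure.pi fun _ => μ)

/-- The common hypotheses on `f`. -/
structure FOk {Ω : Type} [MeasurableSpace Ω] (μ : Measure Ω) (f : Ω → Ω → ℝ) (κ : ℝ) : Prop where
  symm : ∀ x y, f x y = f y x
  meas : Measurable (fun z : Ω × Ω => f z.1 z.2)
  bdd : ∀ x y, |f x y| ≤ 1
  row : ∀ x, ∫ y, |f x y| ∂μ ≤ κ
  le : κ ≤ 1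

/-- Two leaf edges and a third edge. -/
def LF2Stmt : Prop :=
  ∀ (V Ω : Type) [Fintype V] [MeasurableSpace Ω] (μ : Measure Ω) [IsProbabilityMeasure μ]
    (A : Finset (Sym2 V)) (f : Ω → Ω → ℝ) (κ : ℝ) (hf : FOk μ f κ),
    (∀ e ∈ A, ¬ e.IsDiag) → 3 ≤ A.card → ∀ v w v' w' : V, s(v, w) ∈ A → s(v', w') ∈ A →
    s(v, w) ≠ s(v', w') → (∀ e ∈ A, v ∈ e → e = s(v, w)) → (∀ e ∈ A, v' ∈ e → e = s(v', w')) →
    |sDens μ A f hf.symm| ≤ κ * ∫ x, (∫ y, f x y ∂μ) ^ 2 ∂μ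

/-- A cherry. -/
def CHRStmt : Prop :=
  ∀ (V Ω : Type) [Fintype V] [DecidableEq V] [MeasurableSpace Ω] (μ : Measure Ω)
    [IsProbabilityMeasure μ] (f : Ω → Ω → ℝ) (κ : ℝ) (hf : FOk μ f κ),
    ∀ v w z : V, v ≠ w → v ≠ z → w ≠ z →
    sDens μ {s(v, w), s(v, z)} f hf.symm = ∫ x, (∫ y, f x y ∂μ) ^ 2 ∂μ

/-- A long chordless cycle. -/
def CYAStmt : Prop :=
  ∀ (V Ω : Type) [Fintype V] [MeasurableSpace Ω] (μ : Measure Ω) [IsProbabilityMeasure μ]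
    (A : Finset (Sym2 V)) (f : Ω → Ω → ℝ) (κ : ℝ) (hf : FOk μ f κ),
    (∀ e ∈ A, ¬ e.IsDiag) → ∀ (r n : ℕ) (c : Fin (n + 3) → V), 2 ≤ r → 2 * r < n + 3 →
    CycIn A n c → Chordless A n c → |sDens μ A f hf.symm| ≤ κ * cyT μ f r

/-- A chordless cycle of length `2r` and an edge away from it. -/
def CYFStmt : Prop :=
  ∀ (V Ω : Type) [Fintype V] [MeasurableSpace Ω] (μ : Measure Ω) [IsProbabilityMeasure μ]
    (A : Finset (Sym2 V)) (f : Ω → Ω → ℝ) (κ : ℝ) (hf : FOk μ f κ),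
    (∀ e ∈ A, ¬ e.IsDiag) → ∀ (r n : ℕ) (c : Fin (n + 3) → V), 2 ≤ r → 2 * r = n + 3 →
    CycIn A n c → Chordless A n c → ∀ a b : V, a ∉ range c → b ∉ range c → s(a, b) ∈ A →
    |sDens μ A f hf.symm| ≤ κ * cyT μ f r

/-- A chordless cycle of length `2r` with a pendant edge. -/
def CYLStmt : Prop :=
  ∀ (V Ω : Type) [Fintype V] [MeasurableSpace Ω] (μ : Measure Ω) [IsProbabilityMeasure μ]
    (A : Finset (Sym2 V)) (f : Ω → Ω → ℝ) (κ : ℝ) (hf : FOk μ f κ),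
    (∀ e ∈ A, ¬ e.IsDiag) → ∀ (r n : ℕ) (c : Fin (n + 3) → V), 2 ≤ r → 2 * r = n + 3 →
    CycIn A n c → Chordless A n c → ∀ (i : Fin (n + 3)) (b : V), b ∉ range c →
    s(c i, b) ∈ A → (∀ e ∈ A, b ∈ e → e = s(c i, b)) →
    |sDens μ A f hf.symm| ≤ κ * cyT μ f r

/-- A chordless 4-cycle and a vertex joined to two opposite vertices of it. -/
def K23Stmt : Prop :=
  ∀ (V Ω : Type) [Fintype V] [MeasurableSpace Ω] (μ : Measure Ω) [IsProbabilityMeasure μ]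
    (A : Finset (Sym2 V)) (f : Ω → Ω → ℝ) (κ : ℝ) (hf : FOk μ f κ),
    (∀ e ∈ A, ¬ e.IsDiag) → ∀ v₁ v₂ v₃ v₄ b : V, [v₁, v₂, v₃, v₄, b].Nodup →
    s(v₁, v₂) ∈ A → s(v₂, v₃) ∈ A → s(v₃, v₄) ∈ A → s(v₄, v₁) ∈ A → s(b, v₁) ∈ A →
    s(b, v₃) ∈ A → s(v₂, v₄) ∉ A → s(v₂, b) ∉ A → s(v₄, b) ∉ A →
    |sDens μ A f hf.symm| ≤ κ * cyT μ f 2

/-- The cycle alone. -/
def CYOStmt : Prop :=
  ∀ (V Ω : Type) [Fintype V] [DecidableEq V] [MeasurableSpace Ω] (μ : Measure Ω)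
    [IsProbabilityMeasure μ] (f : Ω → Ω → ℝ) (κ : ℝ) (hf : FOk μ f κ) (r n : ℕ)
    (c : Fin (n + 3) → V), 2 ≤ r → 2 * r = n + 3 → Function.Injective c →
    sDens μ (Finset.univ.image fun i => s(c i, c (i + 1))) f hf.symm = cyT μ f r

/-- Classification of the sets with at least three edges and all cycles of length at least
`2r`. -/
def CLSStmt : Prop :=
  ∀ (V : Type) [Fintype V] [DecidableEq V] (A : Finset (Sym2 V)) (r : ℕ), 2 ≤ r →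
    (∀ e ∈ A, ¬ e.IsDiag) → 3 ≤ A.card →
    (∀ (n : ℕ) (c : Fin (n + 3) → V), CycIn A n c → 2 * r ≤ n + 3) →
    (∃ v w v' w' : V, s(v, w) ∈ A ∧ s(v', w') ∈ A ∧ s(v, w) ≠ s(v', w') ∧
      (∀ e ∈ A, v ∈ e → e = s(v, w)) ∧ (∀ e ∈ A, v' ∈ e → e = s(v', w'))) ∨
    ∃ (n : ℕ) (c : Fin (n + 3) → V), CycIn A n c ∧ Chordless A n c ∧
      (2 * r < n + 3 ∨ (2 * r = n + 3 ∧
        (A = Finset.univ.image (fun i => s(c i, c (i + 1))) ∨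
        (∃ a b : V, a ∉ range c ∧ b ∉ range c ∧ s(a, b) ∈ A) ∨
        (∃ (i : Fin (n + 3)) (b : V), b ∉ range c ∧ s(c i, b) ∈ A ∧
          ∀ e ∈ A, b ∈ e → e = s(c i, b)) ∨
        (r = 2 ∧ ∃ v₁ v₂ v₃ v₄ b : V, [v₁, v₂, v₃, v₄, b].Nodup ∧ s(v₁, v₂) ∈ A ∧
          s(v₂, v₃) ∈ A ∧ s(v₃, v₄) ∈ A ∧ s(v₄, v₁) ∈ A ∧ s(b, v₁) ∈ A ∧ s(b, v₃) ∈ A ∧
          s(v₂, v₄) ∉ A ∧ s(v₂, b) ∉ A ∧ s(v₄, b) ∉ A))))

/-- Without cycles there are two leaf edges. -/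
def FORStmt : Prop :=
  ∀ (V : Type) [Fintype V] [DecidableEq V] (A : Finset (Sym2 V)),
    (∀ e ∈ A, ¬ e.IsDiag) → 2 ≤ A.card → (∀ (n : ℕ) (c : Fin (n + 3) → V), ¬ CycIn A n c) →
    ∃ v w v' w' : V, s(v, w) ∈ A ∧ s(v', w') ∈ A ∧ s(v, w) ≠ s(v', w') ∧
      (∀ e ∈ A, v ∈ e → e = s(v, w)) ∧ (∀ e ∈ A, v' ∈ e → e = s(v', w'))

/-- Even girth. -/
def GEVStmt : Prop :=
  ∀ (V : Type) [Fintype V] (H : SimpleGraph V), Even H.girth →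
    (∀ (n : ℕ) (c : Fin (n + 3) → V), ¬ CycIn (edges H) n c) ∨
    ∃ r : ℕ, 2 ≤ r ∧ (∀ (n : ℕ) (c : Fin (n + 3) → V), CycIn (edges H) n c → 2 * r ≤ n + 3) ∧
      ∃ (n : ℕ) (c : Fin (n + 3) → V), CycIn (edges H) n c ∧ 2 * r = n + 3

/-- Density of an almost constant kernel with small rows, even girth. -/
def RG2Stmt : Prop :=
  ∀ (V : Type) [Fintype V] (H : SimpleGraph V), Even H.girth → (∃ v, 2 ≤ dg H v) →
    ∃ κ0 : ℝ, 0 < κ0 ∧ ∀ (Ω : Type) [MeasurableSpace Ω] (μ : Measure Ω) [IsProbabilityMeasure μ]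
      (m : ℝ) (f : Ω → Ω → ℝ) (κ : ℝ) (_ : FOk μ f κ) (hg : ∀ x y, m + f x y = m + f y x),
      1 / 2 ≤ m → m ≤ 1 → κ ≤ κ0 →
      m ^ numEdges H + numEdges H * m ^ (numEdges H - 1) * (∫ z : Ω × Ω, f z.1 z.2 ∂(μ.prod μ))
        ≤ sDens μ (edges H) (fun x y => m + f x y) hg

/-! ## Local Sidorenko inequality near `1` -/

/-- Matchings. -/
def MTCStmt : Prop :=
  ∀ (V : Type) [Fintype V] (H : SimpleGraph V), (∀ v, dg H v ≤ 1) → ∀ W : Graphon,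
    homDensity H W = mean W ^ numEdges H

/-- The function of the row averages. -/
def GN2Stmt : Prop :=
  ∀ (V : Type) [Fintype V] (H : SimpleGraph V), (∃ v, 2 ≤ dg H v) → ∀ m s : ℝ, 0 ≤ m → m ≤ 1 →
    0 ≤ s → s ≤ 1 →
    2 * numEdges H * m ^ (numEdges H - 1) * (s - m) + m ^ (numEdges H - 2) * (s - m) ^ 2 ≤
      ∑ v : V, m ^ (numEdges H - dg H v) * (s ^ dg H v - m ^ dg H v)

/-- The mean of `repl W q B`. -/
def MRLStmt : Prop :=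
  ∀ (W : Graphon) (q : ℝ) (hq : q ∈ Icc (0 : ℝ) 1) (B : Set I) (hB : MeasurableSet B),
    (mean W - q) - 2 * (∫ t in B, (rowAv W t - q)) - volume.real B ^ 2
      ≤ ∫ z : I × I, (repl W q hq B hB z.1 z.2 - q)

/-- The rows of `repl W m B - m` for `m = mean W` near `1`. -/
def RWLStmt : Prop :=
  ∀ (W : Graphon) (q : ℝ) (hq : q ∈ Icc (0 : ℝ) 1) (η : ℝ), 0 < η →
    ∀ hB : MeasurableSet {x : I | η < |rowAv W x - q|}, ∀ x,
      ∫ y : I, |repl W q hq _ hB x y - q| ≤ η + 2 * (1 - q)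

/-- Local Sidorenko inequality near `1` for even girth. -/
def LSDStmt : Prop :=
  ∀ (V : Type) [Fintype V] (H : SimpleGraph V), Even H.girth →
    ∃ δ0 > 0, ∀ W : Graphon, 1 - δ0 ≤ mean W → mean W ^ numEdges H ≤ homDensity H W

/-- Jensen. -/
def JENStmt : Prop :=
  ∀ (p : ℝ) (W : Graphon), 0 < p → p < 1 → relEnt p (mean W) ≤ cost p W

/-- Even girth: replica symmetry near `q = 1`, for all `p`. -/
def EGDStmt : Prop :=
  ∀ (V : Type) [Fintype V] (H : SimpleGraph V), Even H.girth → 0 < numEdges H →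
    ∃ q0 : ℝ, 0 < q0 ∧ q0 < 1 ∧ ∀ p q, q0 ≤ q → q ≤ p → p < 1 → IsMinimizer H p q

/-- Final statement of the second part. -/
def MN2Stmt : Prop :=
  ∀ (V : Type) [Fintype V] (H : SimpleGraph V), H ≠ ⊥ →
    ∃ ρ : ℝ → ℝ, (∀ p ∈ Ioo (0 : ℝ) 1, 0 ≤ ρ p ∧ ρ p < 1) ∧
      (∀ p q : ℝ, 0 < q → q ≤ p → p < 1 →
        (IsMinimizer H p q ↔ ρ p * p ≤ q) ∧ (IsUniqueMinimizer H p q ↔ ρ p * p < q)) ∧
      (∀ p q1 : ℝ, 0 < q1 → q1 ≤ p → p < 1 → ∃ ε > 0, ∀ q, q1 ≤ q → q ≤ p → ∀ W : Graphon,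
        homDensity H W ≤ q ^ numEdges H → cost p W ≤ relEnt p q →
        (∀ᵐ z : I × I, W z.1 z.2 = q) ∨ ε < ∫ z : I × I, (W z.1 z.2 - q) ^ 2) ∧
      (¬ H.Colorable 2 → (∀ p ∈ Ioo (0 : ℝ) 1, 0 < ρ p) ∧ StrictMonoOn ρ (Ioo 0 1) ∧
        StrictAntiOn (fun p => (1 - p) * ρ p) (Ioo 0 1)) ∧
      (Odd H.girth → Tendsto ρ (𝓝[<] 1) (𝓝 1)) ∧
      (Even H.girth → ∃ q0 < 1, ∀ p ∈ Ioo (0 : ℝ) 1, ρ p * p ≤ q0)

end Pool.FOT
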